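import Pool.Agent.Helper20.SW.Cone

/-! Counting lemmas on a cone (MP_47cd0b_co, rows D4 and D5 of the page MP_47cd0b_FINAL_h20.md). -/

namespace Pool.Agent.Helper78.RF

open Finset Classical H20SW

set_option linter.unusedSectionVars false

variable {Y U E G P R : Type} [Fintype Y] [Fintype U] [Fintype E]

/-- at most `#X / (h - 1)` lines through `y` have at least `h` points in `X` -/
theorem many_at (C : Cone Y U E G P R) (X : Finset Y) (W : Finset E) (h : ℕ) (y : Y)
    (hW : ∀ l ∈ W, C.on y l ∧ h ≤ (X.filter fun x => C.on x l).card) :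
    W.card * (h - 1) ≤ X.card := by
  have hd : ∀ l ∈ W, ∀ m ∈ W, l ≠ m →
      Disjoint ((X.filter fun x => C.on x l).erase y) ((X.filter fun x => C.on x m).erase y) := by
    intro l hl m hm hlm
    rw [Finset.disjoint_left]
    intro x hx hx'
    rw [Finset.mem_erase, Finset.mem_filter] at hx hx'
    exact hlm (C.uniq x y l m hx.1 hx.2.2 (hW l hl).1 hx'.2.2 (hW m hm).1)
  have h1 : (W.biUnion fun l => (X.filter fun x => C.on x l).erase y).card =
      ∑ l ∈ W, ((X.filter fun x => C.on x l).erase y).card := Finset.card_biUnion hd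
  have h2 : (W.biUnion fun l => (X.filter fun x => C.on x l).erase y) ⊆ X := by
    intro x hx
    rw [Finset.mem_biUnion] at hx
    obtain ⟨l, -, hx⟩ := hx
    exact (Finset.mem_filter.1 (Finset.mem_erase.1 hx).2).1
  have h3 : W.card * (h - 1) ≤ ∑ l ∈ W, ((X.filter fun x => C.on x l).erase y).card := by
    rw [← smul_eq_mul, ← Finset.sum_const]
    refine Finset.sum_le_sum fun l hl => ?_
    have := Finset.pred_card_le_card_erase (s := X.filter fun x => C.on x l) (a := y)
    have := (hW l hl).2
    omega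
  exact (h3.trans h1.ge).trans (Finset.card_le_card h2)

/-- at most `#X (#X - 1) / (h (h - 1))` lines have at least `h` points in `X` -/
theorem many_in (C : Cone Y U E G P R) (X : Finset Y) (W : Finset E) (h : ℕ)
    (hW : ∀ l ∈ W, h ≤ (X.filter fun x => C.on x l).card) :
    W.card * (h * (h - 1)) ≤ X.card * (X.card - 1) := by
  have hd : ∀ l ∈ W, ∀ m ∈ W, l ≠ m →
      Disjoint (X.filter fun x => C.on x l).offDiag (X.filter fun x => C.on x m).offDiag := by
    intro l hl m hm hlm
    rw [Finset.disjoint_left]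
    rintro ⟨x, x'⟩ hx hx'
    rw [Finset.mem_offDiag] at hx hx'
    obtain ⟨a1, a2, a3⟩ := hx
    obtain ⟨b1, b2, -⟩ := hx'
    exact hlm (C.uniq x x' l m a3 (Finset.mem_filter.1 a1).2 (Finset.mem_filter.1 a2).2
      (Finset.mem_filter.1 b1).2 (Finset.mem_filter.1 b2).2)
  have h1 : (W.biUnion fun l => (X.filter fun x => C.on x l).offDiag).card =
      ∑ l ∈ W, ((X.filter fun x => C.on x l).offDiag).card := Finset.card_biUnion hd
  have h2 : (W.biUnion fun l => (X.filter fun x => C.on x l).offDiag) ⊆ X.offDiag := by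
    rintro ⟨x, x'⟩ hx
    rw [Finset.mem_biUnion] at hx
    obtain ⟨l, -, hx⟩ := hx
    rw [Finset.mem_offDiag] at hx ⊢
    exact ⟨(Finset.mem_filter.1 hx.1).1, (Finset.mem_filter.1 hx.2.1).1, hx.2.2⟩
  have hoff : ∀ s : Finset Y, s.offDiag.card = s.card * (s.card - 1) := by
    intro s
    rw [Finset.offDiag_card, Nat.mul_sub_one]
  have h3 : W.card * (h * (h - 1)) ≤ ∑ l ∈ W, ((X.filter fun x => C.on x l).offDiag).card := by
    rw [← smul_eq_mul, ← Finset.sum_const]
    refine Finset.sum_le_sum fun l hl => ?_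
    rw [hoff]
    exact Nat.mul_le_mul (hW l hl) (Nat.sub_le_sub_right (hW l hl) 1)
  rw [← hoff X]
  exact (h3.trans h1.ge).trans (Finset.card_le_card h2)

/-- lines with at least `p` points through `y` -/
theorem fat_at (C : Cone Y U E G P R) (p : ℕ) (y : Y) :
    (univ.filter fun l => C.on y l ∧ p ≤ C.tl l).card * (p - 1) ≤ Fintype.card Y := by
  have := many_at C univ (univ.filter fun l => C.on y l ∧ p ≤ C.tl l) p y (by
    intro l hl
    rw [Finset.mem_filter] at hl
    exact hl.2)
  rwa [Finset.card_univ] at this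

/-- the points in pairs of the family -/
noncomputable def Q1 (J : Finset E) (a b : E → Y) : Finset Y := J.image a ∪ J.image b

theorem card_Q1 (J : Finset E) (a b : E → Y) : (Q1 J a b).card ≤ 2 * J.card := by
  have h1 := Finset.card_union_le (J.image a) (J.image b)
  have h2 := Finset.card_image_le (s := J) (f := a)
  have h3 := Finset.card_image_le (s := J) (f := b)
  unfold Q1
  omega

theorem mem_Q1a {J : Finset E} {a b : E → Y} {l : E} (hl : l ∈ J) : a l ∈ Q1 J a b :=
  Finset.mem_union_left _ (Finset.mem_image_of_mem a hl)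

theorem mem_Q1b {J : Finset E} {a b : E → Y} {l : E} (hl : l ∈ J) : b l ∈ Q1 J a b :=
  Finset.mem_union_right _ (Finset.mem_image_of_mem b hl)

theorem tl_le (C : Cone Y U E G P R) (l : E) : C.tl l ≤ C.s := C.short l

theorem two_le_tl (C : Cone Y U E G P R) (l : E) : 2 ≤ C.tl l := by
  obtain ⟨x, y, hxy, hx, hy⟩ := C.two l
  have h : ({x, y} : Finset Y) ⊆ univ.filter fun y => C.on y l := by
    intro z hz
    rw [Finset.mem_insert, Finset.mem_singleton] at hz
    rcases hz with rfl | rfl
    · exact Finset.mem_filter.2 ⟨Finset.mem_univ _, hx⟩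
    · exact Finset.mem_filter.2 ⟨Finset.mem_univ _, hy⟩
  have := Finset.card_le_card h
  rwa [Finset.card_pair hxy] at this

/-- users on an allowed plane -/
theorem card_pl_real (C : Cone Y U E G P R) (z : U) (l : E) (hl : C.ok z l) :
    ((univ.filter fun w => C.pl w l = C.pl z l).card : ℝ) ≤ (Fintype.card Y : ℝ) - C.tl l := by
  have h := C.card_pl z l hl
  have h' : ((univ.filter fun w => C.pl w l = C.pl z l).card : ℝ) + (C.tl l : ℝ) ≤
      (Fintype.card Y : ℝ) := by
    unfold Cone.tl
    exact_mod_cast h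
  linarith

/-- load of an allowed plane over `l`, weight `1 / (N - t)` for each user -/
theorem load_pl (C : Cone Y U E G P R) (z : U) (l : E) (hl : C.ok z l)
    (hN : C.s < Fintype.card Y) :
    ∑ _w ∈ univ.filter (fun w => C.pl w l = C.pl z l), (1 : ℝ) / ((Fintype.card Y : ℝ) - C.tl l)
      ≤ 1 := by
  rw [Finset.sum_const, nsmul_eq_mul]
  have h1 : (0 : ℝ) < (Fintype.card Y : ℝ) - C.tl l := by
    have := C.short l
    have h2 : C.tl l < Fintype.card Y := lt_of_le_of_lt this hN
    have h3 : (C.tl l : ℝ) < Fintype.card Y := by exact_mod_cast h2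
    linarith
  rw [mul_one_div, div_le_one h1]
  exact card_pl_real C z l hl

/-- the fat lines on a point -/
theorem fat_inv (C : Cone Y U E G P R) (y : Y) {p : ℕ} (hp : 2 ≤ p) :
    ∑ l ∈ univ.filter (fun l => C.on y l ∧ p ≤ C.tl l), (1 : ℝ) / (C.tl l : ℝ)
      ≤ (Fintype.card Y : ℝ) / ((p : ℝ) * ((p : ℝ) - 1)) := by
  have hp' : (2 : ℝ) ≤ p := by exact_mod_cast hp
  have h1 : ∑ l ∈ univ.filter (fun l => C.on y l ∧ p ≤ C.tl l), (1 : ℝ) / (C.tl l : ℝ)
      ≤ ∑ _l ∈ univ.filter (fun l => C.on y l ∧ p ≤ C.tl l), (1 : ℝ) / (p : ℝ) := by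
    refine Finset.sum_le_sum fun l hl => ?_
    rw [Finset.mem_filter] at hl
    have : (p : ℝ) ≤ C.tl l := by exact_mod_cast hl.2.2
    exact one_div_le_one_div_of_le (by linarith) this
  refine h1.trans ?_
  rw [Finset.sum_const, nsmul_eq_mul]
  have h2 := fat_at C p y
  have h3 : ((univ.filter fun l => C.on y l ∧ p ≤ C.tl l).card : ℝ) * ((p : ℝ) - 1) ≤
      Fintype.card Y := by
    have : (((univ.filter fun l => C.on y l ∧ p ≤ C.tl l).card * (p - 1) : ℕ) : ℝ) ≤
        (Fintype.card Y : ℝ) := by exact_mod_cast h2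
    rwa [Nat.cast_mul, Nat.cast_sub (by omega), Nat.cast_one] at this
  rw [mul_one_div, div_le_div_iff₀ (by linarith) (by nlinarith)]
  nlinarith

/-- ordered pairs of points of `l` one of which is `y` -/
theorem card_pairs_at (X : Finset Y) (y : Y) :
    ((X.offDiag.filter fun q => q.1 = y ∨ q.2 = y).card) ≤ 2 * (X.card - 1) := by
  by_cases hy : y ∈ X
  · have h : (X.offDiag.filter fun q => q.1 = y ∨ q.2 = y) ⊆
        ((X.erase y).image fun x => (y, x)) ∪ ((X.erase y).image fun x => (x, y)) := by
      rintro ⟨x, x'⟩ hx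
      rw [Finset.mem_filter, Finset.mem_offDiag] at hx
      obtain ⟨⟨a1, a2, a3⟩, a4⟩ := hx
      rw [Finset.mem_union, Finset.mem_image, Finset.mem_image]
      rcases a4 with rfl | rfl
      · exact Or.inl ⟨x', Finset.mem_erase.2 ⟨fun h => a3 h.symm, a2⟩, rfl⟩
      · exact Or.inr ⟨x, Finset.mem_erase.2 ⟨a3, a1⟩, rfl⟩
    have h1 := Finset.card_le_card h
    have h2 := Finset.card_union_le ((X.erase y).image fun x => (y, x))
      ((X.erase y).image fun x => (x, y))
    have h3 := Finset.card_image_le (s := X.erase y) (f := fun x => (y, x))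
    have h4 := Finset.card_image_le (s := X.erase y) (f := fun x => (x, y))
    have h5 := Finset.card_erase_of_mem hy
    omega
  · have h : (X.offDiag.filter fun q => q.1 = y ∨ q.2 = y) = ∅ := by
      rw [Finset.filter_eq_empty_iff]
      rintro ⟨x, x'⟩ hx
      rw [Finset.mem_offDiag] at hx
      rintro (rfl | rfl)
      · exact hy hx.1
      · exact hy hx.2.1
    rw [h, Finset.card_empty]
    exact Nat.zero_le _

/-- a fat line with fewer than `h` points off `X` has more than `p - h` points in `X` -/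
theorem split_tl (C : Cone Y U E G P R) (X : Finset Y) (l : E) :
    (X.filter fun x => C.on x l).card + ((univ \ X).filter fun x => C.on x l).card = C.tl l := by
  unfold Cone.tl
  rw [← Finset.card_union_of_disjoint]
  · rw [← Finset.filter_union, Finset.union_sdiff_of_subset (Finset.subset_univ X)]
  · rw [Finset.disjoint_left]
    intro x hx hx'
    exact (Finset.mem_sdiff.1 (Finset.mem_filter.1 hx').1).2 (Finset.mem_filter.1 hx).1

end Pool.Agent.Helper78.RF
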